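import Pool.Agent.R128.ChainSat3

set_option autoImplicit false

/-!
# Bounded induced saturation for unions of chains of unequal lengths (MP_80cf42_co)

For positive integers `i₁ ≥ ⋯ ≥ i_m` with `i₁ > i_m` the induced saturation number of the disjoint
union of the chains with `i₁, …, i_m` elements is bounded by a constant, uniformly in `n`.

* `HasCopy P F`: the family `F` of subsets of `Fin n` contains an induced copy of `P`.
* `IsSaturated P F`: `F` contains no induced copy of `P`, but adding any further set creates one.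
* `satStar n P`: the least size of a saturated family.
* The union of chains is the Mathlib disjoint sum order on `Σ j, Fin (i j)`.
-/

namespace Pool.Agent.Results.MP_80cf42_co.BoundedSaturation

open Pool.Agent.R128.ChainSat

/-- The family `F` of subsets of `{0, …, n-1}` contains an induced copy of `P`. -/
def HasCopy (P : Type) [PartialOrder P] {n : ℕ} (F : Finset (Finset (Fin n))) : Prop :=
  ∃ b : P → Finset (Fin n), Function.Injective b ∧ (∀ p, b p ∈ F) ∧ ∀ p q, p ≤ q ↔ b p ⊆ b q

/-- The family `F` is induced `P`-saturated. -/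
def IsSaturated (P : Type) [PartialOrder P] {n : ℕ} (F : Finset (Finset (Fin n))) : Prop :=
  ¬ HasCopy P F ∧ ∀ G : Finset (Fin n), G ∉ F → HasCopy P (insert G F)

/-- The induced saturation number: the least size of an induced `P`-saturated family. -/
noncomputable def satStar (n : ℕ) (P : Type) [PartialOrder P] : ℕ :=
  sInf {s | ∃ F : Finset (Finset (Fin n)), IsSaturated P F ∧ F.card = s}

/-- The disjoint union of the chains with `i j` elements: the elements are the pairs `⟨j, a⟩` with
`a < i j`, and `⟨j, a⟩ ≤ ⟨j', a'⟩` exactly if `j = j'` and `a ≤ a'`. -/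
abbrev ChainUnion {m : ℕ} (i : Fin m → ℕ) : Type := Σ j : Fin m, Fin (i j)

lemma hasCopy_iff {m : ℕ} (i : Fin m → ℕ) {n : ℕ} (F : Finset (Finset (Fin n))) :
    HasCopy (ChainUnion i) F ↔ ∃ c, IsCopy i (F : Set (Finset (Fin n))) c := by
  classical
  constructor
  · rintro ⟨b, hb1, hb2, hb3⟩
    refine ⟨fun j => Finset.univ.image (fun a : Fin (i j) => b ⟨j, a⟩), ?_, ?_, ?_, ?_⟩
    · intro j
      rw [Finset.card_image_of_injective, Finset.card_univ, Fintype.card_fin]
      intro a a' h
      have := hb1 h
      simpa using this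
    · intro j x hx y hy
      simp only [Finset.mem_image, Finset.mem_univ, true_and] at hx hy
      obtain ⟨a, rfl⟩ := hx
      obtain ⟨a', rfl⟩ := hy
      rcases le_total a a' with h | h
      · left
        exact (hb3 _ _).mp (Sigma.mk_le_mk_iff.mpr h)
      · right
        exact (hb3 _ _).mp (Sigma.mk_le_mk_iff.mpr h)
    · intro j x hx
      simp only [Finset.mem_image, Finset.mem_univ, true_and] at hx
      obtain ⟨a, rfl⟩ := hx
      exact hb2 _
    · intro j j' hne x hx y hy hxy
      simp only [Finset.mem_image, Finset.mem_univ, true_and] at hx hy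
      obtain ⟨a, rfl⟩ := hx
      obtain ⟨a', rfl⟩ := hy
      have h1 := (hb3 _ _).mpr hxy
      rw [Sigma.le_def] at h1
      obtain ⟨h2, -⟩ := h1
      exact hne h2
  · rintro ⟨c, hc⟩
    have hex := fun j => exists_orderEmb (c j) (hc.card j) (hc.chain j)
    choose f hf1 hf2 using hex
    have key : ∀ p q : ChainUnion i, p ≤ q ↔ f p.1 p.2 ⊆ f q.1 q.2 := by
      rintro ⟨j, a⟩ ⟨j', a'⟩
      by_cases hj : j = j'
      · subst hj
        rw [Sigma.mk_le_mk_iff]
        exact hf1 j a a'
      · constructor
        · intro h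
          rw [Sigma.le_def] at h
          obtain ⟨h2, -⟩ := h
          exact absurd h2 hj
        · intro h
          exact absurd h (hc.inc j j' hj _ (hf2 j a) _ (hf2 j' a'))
    refine ⟨fun p => f p.1 p.2, ?_, fun p => hc.sub p.1 _ (hf2 p.1 p.2), key⟩
    intro p q hpq
    exact le_antisymm ((key p q).mpr (le_of_eq hpq)) ((key q p).mpr (le_of_eq hpq.symm))

lemma exists_saturated (P : Type) [PartialOrder P] {n : ℕ} {F0 : Finset (Finset (Fin n))}
    (h0 : ¬ HasCopy P F0) : ∃ F, F0 ⊆ F ∧ IsSaturated P F := by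
  classical
  obtain ⟨F, hF1, hF2⟩ := Set.Finite.exists_le_maximal
    (s := {F : Finset (Finset (Fin n)) | ¬ HasCopy P F}) (Set.toFinite _) h0
  refine ⟨F, hF1, hF2.1, ?_⟩
  intro G hG
  by_contra hcon
  exact hG (hF2.2 (y := insert G F) hcon (Finset.subset_insert G F) (Finset.mem_insert_self G F))

/-- For all positive integers `i₁ ≥ ⋯ ≥ i_m` with `i₁ > i_m` (here `m` is written `m + 1` and the
chain lengths are `i 0 ≥ i 1 ≥ ⋯ ≥ i m`) there is a constant `C` such that for every `n` there are
induced saturated families for the union of chains and the least size `satStar` of such a family is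
at most `C`. -/
theorem result (m : ℕ) (i : Fin (m + 1) → ℕ) (hpos : ∀ j, 0 < i j) (hanti : Antitone i)
    (hne : i (Fin.last m) < i 0) :
    ∃ C : ℕ, ∀ n : ℕ, (∃ F : Finset (Finset (Fin n)), IsSaturated (ChainUnion i) F) ∧
      satStar n (ChainUnion i) ≤ C := by
  classical
  obtain ⟨X, hX, hgood⟩ := igood_of_nonconstant (i 0) (Fin (m + 1)) i hpos
    (fun j => hanti (Fin.zero_le j)) ⟨0, Fin.last m, hne.ne'⟩
  refine ⟨2 ^ (Fintype.card X + 1), fun n => ?_⟩
  suffices h : ∃ F : Finset (Finset (Fin n)), IsSaturated (ChainUnion i) F ∧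
      F.card ≤ 2 ^ (Fintype.card X + 1) by
    obtain ⟨F, hF1, hF2⟩ := h
    refine ⟨⟨F, hF1⟩, le_trans (Nat.sInf_le ?_) hF2⟩
    exact ⟨F, hF1, rfl⟩
  by_cases hn : Fintype.card X < n
  · obtain ⟨F0, h1, h2⟩ := exists_small hgood hn
    rw [← hasCopy_iff] at h1
    obtain ⟨F, hF1, hF2⟩ := exists_saturated (ChainUnion i) h1
    refine ⟨F, hF2, h2 F hF1 ?_⟩
    rw [← hasCopy_iff]
    exact hF2.1
  · have h0 : ¬ HasCopy (ChainUnion i) (∅ : Finset (Finset (Fin n))) := by
      rintro ⟨b, -, hb, -⟩
      exact absurd (hb ⟨0, ⟨0, hpos 0⟩⟩) (Finset.notMem_empty _)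
    obtain ⟨F, -, hF⟩ := exists_saturated (ChainUnion i) h0
    refine ⟨F, hF, (Finset.card_le_univ F).trans ?_⟩
    rw [Fintype.card_finset, Fintype.card_fin]
    exact Nat.pow_le_pow_right (by norm_num) (by omega)

end Pool.Agent.Results.MP_80cf42_co.BoundedSaturation
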